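import Pool.Agent.H986.DS.Eight

/-!
# Self-avoiding walks with different starting points meet

Two independent uniform self-avoiding walks on `ℤ²` with at least `N` steps, which start at two
points at Euclidean distance at most `√N / 2`, meet during their first `N` steps with probability at
least `1/8`.  More generally (an estimate of Beurling type), for each deterministic nearest neighbour
path `u` which starts at the origin and visits more than `4 |x|²` sites, the probabilities that the
walk meets `x + u` and that it meets `x - u` have a sum of at least `1/4`.  All this holds not only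
for the uniform law but for all laws on the `n`-step self-avoiding walks which are invariant under
the rotation by 90 degrees, for instance for interacting self-avoiding walks at all temperatures, or
conditionally on the sizes of the walks.  It follows from a deterministic theorem: if two nearest
neighbour paths `w` and `u` start at the origin and each of them visits more than `4 |x|²` sites,
then one of the four rotated copies of `w` meets one of the two paths `x + u` and `x - u`.
-/

set_option autoImplicit false

namespace Pool.Agent.Results.MP_8c6f77_pr.DistantWalksMeet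

/-- `ω` is an `n`-step self-avoiding walk on `ℤ²` started at the origin. -/
def IsSAW (n : ℕ) (ω : Fin (n + 1) → ℤ × ℤ) : Prop :=
  ω 0 = (0, 0) ∧
  (∀ i : Fin n, |(ω i.succ).1 - (ω i.castSucc).1| + |(ω i.succ).2 - (ω i.castSucc).2| = 1) ∧
  Function.Injective ω

/-- `u` is a nearest neighbour path with `l` steps on `ℤ²` started at the origin (not necessarily
self-avoiding). -/
def IsPath (l : ℕ) (u : Fin (l + 1) → ℤ × ℤ) : Prop :=
  u 0 = (0, 0) ∧
  ∀ i : Fin l, |(u i.succ).1 - (u i.castSucc).1| + |(u i.succ).2 - (u i.castSucc).2| = 1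

/-- The square of the Euclidean norm. -/
def normSq (x : ℤ × ℤ) : ℤ := x.1 ^ 2 + x.2 ^ 2

/-- The rotation by 90 degrees. -/
def rot (p : ℤ × ℤ) : ℤ × ℤ := (-p.2, p.1)

/-- The sum of the weights `W ω` of the `n`-step self-avoiding walks `ω` with the property `E`. -/
noncomputable def mass (n : ℕ) (W : (Fin (n + 1) → ℤ × ℤ) → ℝ)
    (E : (Fin (n + 1) → ℤ × ℤ) → Prop) : ℝ :=
  ∑ᶠ ω ∈ {ω | IsSAW n ω ∧ E ω}, W ω

/-- `W` is a nonnegative weight on the `n`-step walks which is invariant under the rotation by 90
degrees and has a positive total mass on the self-avoiding walks. -/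
structure IsWeight (n : ℕ) (W : (Fin (n + 1) → ℤ × ℤ) → ℝ) : Prop where
  nonneg : ∀ ω, 0 ≤ W ω
  rotInv : ∀ ω : Fin (n + 1) → ℤ × ℤ, W (fun i => rot (ω i)) = W ω
  pos : 0 < mass n W (fun _ => True)

/-- The probability of the event `E` for the random `n`-step self-avoiding walk with weight `W`. -/
noncomputable def prob (n : ℕ) (W : (Fin (n + 1) → ℤ × ℤ) → ℝ)
    (E : (Fin (n + 1) → ℤ × ℤ) → Prop) : ℝ :=
  mass n W E / mass n W (fun _ => True)

/-- The probability that the first `N` steps of the walk `ω` meet the first `N` steps of the shifted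
walk `x + ω'`, where `ω` and `ω'` are independent random self-avoiding walks with `n` and `m`
steps and with the weights `W` and `W'`. -/
noncomputable def meetProb (n m : ℕ) (W : (Fin (n + 1) → ℤ × ℤ) → ℝ)
    (W' : (Fin (m + 1) → ℤ × ℤ) → ℝ) (N : ℕ) (x : ℤ × ℤ) : ℝ :=
  (∑ᶠ p ∈ {p : (Fin (n + 1) → ℤ × ℤ) × (Fin (m + 1) → ℤ × ℤ) | IsSAW n p.1 ∧ IsSAW m p.2 ∧
    ∃ (i : Fin (n + 1)) (j : Fin (m + 1)), (i : ℕ) ≤ N ∧ (j : ℕ) ≤ N ∧ p.1 i = x + p.2 j},
      W p.1 * W' p.2) / (mass n W (fun _ => True) * mass m W' (fun _ => True))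

open Pool.Agent.H986.DS in
lemma uniform (n : ℕ) : IsWeight n (fun _ => 1) := by
  refine ⟨fun _ => zero_le_one, fun _ => rfl, ?_⟩
  have h1 : mass n (fun _ => 1) (fun _ => True) =
      Pool.Agent.H986.DS.mass n (fun _ => 1) (fun _ => True) := rfl
  rw [h1, mass_eq, Finset.filter_true, Finset.sum_const, nsmul_eq_mul, mul_one]
  have h2 : 0 < (Pool.Agent.H986.MT.finite_saw n).toFinset.card := by
    rw [Finset.card_pos]
    refine ⟨fun i => ((i.1 : ℤ), (0 : ℤ)), ?_⟩
    rw [Set.Finite.mem_toFinset]
    exact Pool.Agent.H986.MT.exists_saw n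
  exact_mod_cast h2

/-- **Theorem.** Let `x ∈ ℤ²`, and let `|x|` be the Euclidean norm.

1. If `w` and `u` are nearest neighbour paths started at the origin, each of which visits more than
`4 |x|²` different sites, then one of the four rotated copies of `w` meets one of the paths `x + u`
and `x - u`.

Let `N ≥ 4 |x|²`, and consider random self-avoiding walks whose laws are given by weights which are
invariant under the rotation by 90 degrees, for instance (2) uniform ones.

3. Two independent such walks with `n ≥ N` and `m ≥ N` steps, started at `0` and at `x`, meet during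
their first `N` steps with probability at least `1/8`.

4. Let `u` be a nearest neighbour path started at the origin which visits more than `4 |x|²`
different sites. The probabilities that the first `N` steps of such a walk with `n ≥ N` steps meet
`x + u` and that they meet `x - u` have a sum of at least `1/4`. -/
theorem result (x : ℤ × ℤ) :
    (∀ (l l' : ℕ) (w : Fin (l + 1) → ℤ × ℤ) (u : Fin (l' + 1) → ℤ × ℤ), IsPath l w → IsPath l' u →
      4 * normSq x < ((Set.range w).ncard : ℤ) → 4 * normSq x < ((Set.range u).ncard : ℤ) →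
        ∃ k < 4, ∃ (i : Fin (l + 1)) (j : Fin (l' + 1)),
          rot^[k] (w i) = x + u j ∨ rot^[k] (w i) = x - u j) ∧
    (∀ n, IsWeight n (fun _ => 1)) ∧
    (∀ (N n m : ℕ) (W : (Fin (n + 1) → ℤ × ℤ) → ℝ) (W' : (Fin (m + 1) → ℤ × ℤ) → ℝ),
      4 * normSq x ≤ (N : ℤ) → N ≤ n → N ≤ m → IsWeight n W → IsWeight m W' →
        1 / 8 ≤ meetProb n m W W' N x) ∧
    ∀ (N n l : ℕ) (W : (Fin (n + 1) → ℤ × ℤ) → ℝ) (u : Fin (l + 1) → ℤ × ℤ),
      4 * normSq x ≤ (N : ℤ) → N ≤ n → IsWeight n W → IsPath l u →
      4 * normSq x < ((Set.range u).ncard : ℤ) →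
        1 / 4 ≤ prob n W (fun ω => ∃ (i : Fin (n + 1)) (j : Fin (l + 1)), (i : ℕ) ≤ N ∧
            ω i = x + u j) +
          prob n W (fun ω => ∃ (i : Fin (n + 1)) (j : Fin (l + 1)), (i : ℕ) ≤ N ∧
            ω i = x - u j) := by
  refine ⟨fun l l' w u hw hu h1 h2 => ?_, uniform, fun N n m W W' hN hn hm hW hW' => ?_,
    fun N n l W u hN hn hW hu hj => ?_⟩
  · exact Pool.Agent.H986.DS.detS x hw.1 hw.2 hu.1 hu.2 h1 h2
  · have h1 := Pool.Agent.H986.DS.walksS x N n m hN hn hm hW.nonneg hW'.nonneg hW.rotInv hW'.rotInv
    have h2 := mul_pos hW.pos hW'.pos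
    unfold meetProb
    rw [le_div_iff₀ h2]
    change mass n W (fun _ => True) * mass m W' (fun _ => True) ≤ 8 * _ at h1
    have h3 : 1 / 8 * (mass n W (fun _ => True) * mass m W' (fun _ => True)) ≤
        Pool.Agent.H986.DS.mass2 n m W W' (Pool.Agent.H986.DS.Meet N N x) := by linarith
    exact h3
  · have h1 := Pool.Agent.H986.DS.pathS x N n l u hu.1 hu.2 hN hn hj hW.nonneg hW.rotInv
    have h2 := hW.pos
    unfold prob
    rw [← add_div, le_div_iff₀ h2]
    change mass n W (fun _ => True) ≤ 4 * (mass n W _ + mass n W _) at h1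
    linarith

end Pool.Agent.Results.MP_8c6f77_pr.DistantWalksMeet
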