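import Pool.Agent.H982.TZ8
import Pool.Agent.H982.TW13

set_option autoImplicit false

/-!
# Two independent half-plane self-avoiding walks intersect infinitely often

* Square lattice: let `γ` and `γ'` be independent infinite half-plane self-avoiding walks (the weak
  limit of the uniform `n`-step self-avoiding walks in the upper half-plane). Then `γ` and `γ' + j`
  have almost surely infinitely many common sites, for every integer `j` (`j = 0`: the walks start
  from the same site).
* Square lattice: the number of common sites of the uniform half-plane walks `γ` with `n` steps and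
  `γ' + j` with `n'` steps tends to infinity in probability as `n, n' → ∞`.
* Honeycomb lattice: two independent uniform half-plane walks with `n` and `n'` steps, from two
  boundary vertices or from the same one, avoid each other with a probability which tends to zero.

Idea: both walks are decomposed into blocks. Given many blocks of both walks, the event that they do
not meet any more determines (by a parity argument in the plane) the order in which they visit all
high levels for the first time. By the mirror symmetry of the remaining walks, and as the position in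
which a walk enters a high level is spread out, this order has a conditional probability of at most
`1/2`. Hence the probability `p` that they do not meet after time `m` satisfies `p ≤ p / 2`.
-/

namespace Pool.Agent.Results.MP_8c6f77_pr.HalfPlaneWalksMeet

open Filter Topology MeasureTheory

/-! ### The square lattice -/

/-- the points of the square lattice -/
def Z2 : Set ℂ := {z | ∃ a b : ℤ, z = a + b * Complex.I}

/-- the self-avoiding walks with `n` steps in the closed upper half of the square lattice which
start at `0`; a walk is continued by its last point -/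
def HalfWalks (n : ℕ) : Set (ℕ → ℂ) :=
  {γ | γ 0 = 0 ∧ (∀ i, γ i ∈ Z2 ∧ 0 ≤ (γ i).im) ∧ (∀ i < n, ‖γ (i + 1) - γ i‖ = 1) ∧
    (∀ i ≤ n, ∀ j ≤ n, γ i = γ j → i = j) ∧ ∀ i, n ≤ i → γ i = γ n}

/-- `μ` is the law of the infinite half-plane walk: the weak limit of the uniform laws on
`HalfWalks n` -/
def IsInfiniteWalk (μ : Measure (ℕ → ℂ)) : Prop :=
  IsProbabilityMeasure μ ∧ ∀ F : BoundedContinuousFunction (ℕ → ℂ) ℝ,
    Tendsto (fun n => (∑ᶠ γ ∈ HalfWalks n, F γ) / ((HalfWalks n).ncard : ℝ)) atTop
      (𝓝 (∫ γ, F γ ∂μ))

/-- the common sites of `γ` and the translate `γ' + j` -/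
def Common (j : ℤ) (γ γ' : ℕ → ℂ) : Set ℂ := {z | (∃ s, γ s = z) ∧ ∃ t, γ' t + j = z}

/-! ### The honeycomb lattice -/

/-- Adjacency in the honeycomb lattice (brick-wall coordinates). -/
def Nbr (p q : ℤ × ℤ) : Prop :=
  (p.2 = q.2 ∧ (p.1 - q.1 = 1 ∨ q.1 - p.1 = 1)) ∨
    (p.1 = q.1 ∧ ((q.2 = p.2 + 1 ∧ Even (p.1 + p.2)) ∨ (p.2 = q.2 + 1 ∧ Even (q.1 + q.2))))

/-- the self-avoiding walks with `n` steps from `(1, 0)` in the half-plane `1 ≤ p.1 - p.2`, as lists
of vertices -/
def HexWalks (n : ℕ) : Set (List (ℤ × ℤ)) :=
  {l | l.length = n + 1 ∧ l.head? = some (1, 0) ∧ l.Nodup ∧ l.IsChain Nbr ∧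
    ∀ v ∈ l, v ∈ {p : ℤ × ℤ | 1 ≤ p.1 - p.2}}

/-- the walk `l` and the translate of the walk `l'` by `(j, j)` (a translation of the half-plane) have
no vertex in common, except for the first vertex if `j = 0` -/
def Avoid (j : ℕ) (l l' : List (ℤ × ℤ)) : Prop :=
  ∀ v ∈ l', v + ((j : ℤ), (j : ℤ)) ∈ l → j = 0 ∧ v = (1, 0)

/-- **Theorem.** Square lattice:
(1) there is a law `μ` of the infinite half-plane walk, and for independent `γ, γ'` with this law and
every integer `j` the walks `γ` and `γ' + j` have almost surely infinitely many common sites;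
(2) for all `j` and `M` the probability that the uniform half-plane walks `γ` (`n` steps) and
`γ' + j` (`n'` steps) have at most `M` common sites tends to `0` as `n, n' → ∞`;
Honeycomb lattice:
(3) for every `j` the probability that two independent uniform half-plane walks with `n` and `n'`
steps from the boundary vertices `(1, 0)` and `(1 + j, j)` avoid each other tends to `0` as
`n, n' → ∞`. -/
theorem result :
    (∃ μ : Measure (ℕ → ℂ), IsInfiniteWalk μ ∧
      ∀ j : ℤ, ∀ᵐ x ∂(μ.prod μ), (Common j x.1 x.2).Infinite) ∧
    (∀ (j : ℤ) (M : ℕ), Tendsto (fun x : ℕ × ℕ =>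
      (({y | y ∈ HalfWalks x.1 ×ˢ HalfWalks x.2 ∧ (Common j y.1 y.2).ncard ≤ M} :
        Set ((ℕ → ℂ) × (ℕ → ℂ))).ncard : ℝ) /
          (((HalfWalks x.1).ncard : ℝ) * ((HalfWalks x.2).ncard : ℝ))) atTop (𝓝 0)) ∧
    (∀ j : ℕ, Tendsto (fun x : ℕ × ℕ =>
      (({y | y ∈ HexWalks x.1 ×ˢ HexWalks x.2 ∧ Avoid j y.1 y.2} :
        Set (List (ℤ × ℤ) × List (ℤ × ℤ))).ncard : ℝ) /
          (((HexWalks x.1).ncard : ℝ) * ((HexWalks x.2).ncard : ℝ))) atTop (𝓝 0)) := by
  obtain ⟨μ, h⟩ := H982.TZ.exists_law
  have hcard : ∀ n, ((HalfWalks n).ncard : ℝ) = H982.HP.hC n := fun n => by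
    have := H982.HP.PW_ncard n
    exact_mod_cast this
  refine ⟨⟨μ, ⟨h.lim.1, fun F => ?_⟩, fun j => H982.TZ.ae_inf h j⟩, fun j M => ?_, fun j => ?_⟩
  · refine (h.lim.2 F).congr fun n => ?_
    exact (H982.HP.Mn_eq n (fun γ => F γ)).symm
  · refine (H982.TZ.pairs_lim h j M).congr fun x => ?_
    rw [hcard, hcard]
    rfl
  · exact Pool.Agent.H982.TW.walks_lim j

end Pool.Agent.Results.MP_8c6f77_pr.HalfPlaneWalksMeet
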