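import Pool.Agent.H986.TA.All

/-!
# Three self-avoiding walks on `ℤ²` meet, and two of them meet with probability at least `1/2 - o(1)`

Three independent uniform self-avoiding walks on the square lattice, started at the origin, are
pairwise disjoint (apart from the origin) with a probability which tends to zero faster than every
power of the logarithm of the lengths. It follows that the non-intersection probability of two
walks satisfies `P_n ≤ 1/2 + o(1)`, and that the number of walks is at least `(2 - o(1)) μ^n`.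
-/

set_option autoImplicit false

namespace Pool.Agent.Results.MP_8c6f77_pr.ThreeArms

open Filter Topology

/-- `w` is an `n`-step self-avoiding path on `ℤ²` from the origin. -/
def IsSAW (n : ℕ) (w : Fin (n + 1) → ℤ × ℤ) : Prop :=
  w 0 = (0, 0) ∧
  (∀ i : Fin n, |(w i.succ).1 - (w i.castSucc).1| + |(w i.succ).2 - (w i.castSucc).2| = 1) ∧
  Function.Injective w

/-- `a_n`, the number of `n`-step self-avoiding paths on `ℤ²` from the origin -/
noncomputable def a (n : ℕ) : ℕ := Nat.card {w : Fin (n + 1) → ℤ × ℤ // IsSAW n w}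

/-- `w{1,…,n} ∩ w'{0,…,m} = ∅` -/
def Disj {n m : ℕ} (w : Fin (n + 1) → ℤ × ℤ) (w' : Fin (m + 1) → ℤ × ℤ) : Prop :=
  ∀ i j, i ≠ 0 → w i ≠ w' j

/-- the probability that two independent uniform self-avoiding paths with `n` and `m` steps are
disjoint (apart from their starting point) -/
noncomputable def P2 (n m : ℕ) : ℝ :=
  (Nat.card {q : (Fin (n + 1) → ℤ × ℤ) × (Fin (m + 1) → ℤ × ℤ) //
    IsSAW n q.1 ∧ IsSAW m q.2 ∧ Disj q.1 q.2} : ℝ) / (a n * a m)

/-- the probability that three independent uniform self-avoiding paths with `n`, `m` and `k` steps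
are pairwise disjoint (apart from their starting point) -/
noncomputable def P3 (n m k : ℕ) : ℝ :=
  (Nat.card {q : (Fin (n + 1) → ℤ × ℤ) × (Fin (m + 1) → ℤ × ℤ) × (Fin (k + 1) → ℤ × ℤ) //
    IsSAW n q.1 ∧ IsSAW m q.2.1 ∧ IsSAW k q.2.2 ∧
    Disj q.1 q.2.1 ∧ Disj q.1 q.2.2 ∧ Disj q.2.1 q.2.2} : ℝ) / (a n * a m * a k)

open Pool.Agent.H986.TA

lemma P2_eq (n m : ℕ) : P2 n m = Pool.Agent.TH262.UL.p Pool.Agent.TH262.UL.rr n m :=
  Pool.Agent.TH262.UL.P_eq n m

lemma P3_eq (n m k : ℕ) : P3 n m k = q3 n m k := by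
  classical
  unfold P3 q3
  congr 2
  unfold t3
  rw [← Set.ncard_coe_finset, ← Nat.card_coe_set_eq]
  refine Nat.card_congr (Equiv.ofBijective
    (fun q => ⟨(List.ofFn q.1.1, List.ofFn q.1.2.1, List.ofFn q.1.2.2), ?_⟩) ⟨?_, ?_⟩)
  · obtain ⟨q, h1, h2, h3, h4, h5, h6⟩ := q
    rw [Finset.mem_coe, Finset.mem_filter, Finset.mem_product, Finset.mem_product]
    exact ⟨⟨ofFn_Wn h1, ofFn_Wn h2, ofFn_Wn h3⟩,
      dj_ofFn.2 ((Pool.Agent.H986.TA.IsSAW.dj_iff h1).2 h4),
      (dj_ofFn.2 ((Pool.Agent.H986.TA.IsSAW.dj_iff h1).2 h5)).symm,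
      (dj_ofFn.2 ((Pool.Agent.H986.TA.IsSAW.dj_iff h2).2 h6)).symm⟩
  · intro q q' h
    simp only [Subtype.mk.injEq, Prod.mk.injEq] at h
    exact Subtype.ext (Prod.ext (List.ofFn_injective h.1)
      (Prod.ext (List.ofFn_injective h.2.1) (List.ofFn_injective h.2.2)))
  · rintro ⟨⟨b, d, e⟩, hq⟩
    rw [Finset.mem_coe, Finset.mem_filter, Finset.mem_product, Finset.mem_product] at hq
    obtain ⟨⟨hb, hd, he⟩, c1, c2, c3⟩ := hq
    obtain ⟨w, hw, rfl⟩ := ofFn_surj hb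
    obtain ⟨u, hu, rfl⟩ := ofFn_surj hd
    obtain ⟨v, hv, rfl⟩ := ofFn_surj he
    exact ⟨⟨(w, u, v), hw, hu, hv, (Pool.Agent.H986.TA.IsSAW.dj_iff hw).1 (dj_ofFn.1 c1),
      (Pool.Agent.H986.TA.IsSAW.dj_iff hw).1 (dj_ofFn.1 c2.symm),
      (Pool.Agent.H986.TA.IsSAW.dj_iff hu).1 (dj_ofFn.1 c3.symm)⟩, rfl⟩

/-- **Three walks.** There are `c, C > 0` such that:
(1) for all `N ≥ 16` and all lengths `n, m, k` between `N` and `N + exp (N^(1/10))`, three
independent uniform self-avoiding paths from the origin of `ℤ²` with `n`, `m` and `k` steps are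
pairwise disjoint (apart from the origin) with probability at most
`C N^(-c / log log N) √(P2 n m)`; so given that the first two do not meet, the third one avoids them
with probability at most `C N^(-c / log log N) / √(P2 n m)`;
(2) the non-intersection probability of two walks satisfies `P_n ≤ 1/2 + C n^(-c / log log n)` for
all `n ≥ 16`;
(3) the limit `μ > 0` of `a_n ^ (1/n)` exists and `a_n ≥ (2 - C n^(-c / log log n)) μ^n` for all
`n ≥ 16`. -/
theorem result : ∃ c C : ℝ, 0 < c ∧ 0 < C ∧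
    (∀ N n m k : ℕ, 16 ≤ N → N ≤ n → N ≤ m → N ≤ k →
      (n : ℝ) ≤ N + Real.exp ((N : ℝ) ^ (1 / 10 : ℝ)) →
      (m : ℝ) ≤ N + Real.exp ((N : ℝ) ^ (1 / 10 : ℝ)) →
      (k : ℝ) ≤ N + Real.exp ((N : ℝ) ^ (1 / 10 : ℝ)) →
      P3 n m k ≤ C * (N : ℝ) ^ (-(c / Real.log (Real.log N))) * √(P2 n m)) ∧
    (∀ n : ℕ, 16 ≤ n → P2 n n ≤ 1 / 2 + C * (n : ℝ) ^ (-(c / Real.log (Real.log n)))) ∧
    ∃ μ : ℝ, 0 < μ ∧ Tendsto (fun n : ℕ => (a n : ℝ) ^ (1 / (n : ℝ))) atTop (𝓝 μ) ∧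
      ∀ n : ℕ, 16 ≤ n →
        (2 - C * (n : ℝ) ^ (-(c / Real.log (Real.log n)))) * μ ^ n ≤ a n := by
  obtain ⟨c, C, hc, hC, h1, h2, h3⟩ := all
  refine ⟨c, C, hc, hC, ?_, ?_, H981.mu, H981.mu_pos, ?_, ?_⟩
  · intro N n m k hN hn hm hk hn' hm' hk'
    rw [P3_eq, P2_eq]
    exact h1 N hN n m k hn hm hk hn' hm' hk'
  · intro n hn
    rw [P2_eq]
    exact h2 n hn
  · have h := H981.tendsto_root
    simp only [H981.cr'_eq] at h
    exact h
  · intro n hn
    have h4 := h3 n hn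
    unfold Pool.Agent.TH262.UL.rr at h4
    rw [le_div_iff₀ (pow_pos H981.mu_pos n)] at h4
    exact h4

end Pool.Agent.Results.MP_8c6f77_pr.ThreeArms
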